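import Pool.Agent.Lib.MP_1e8505_an.Core

set_option autoImplicit false

open Filter Topology
open scoped InnerProductSpace

noncomputable section

namespace Pool.Agent.Results.MP_1e8505_an.HalmosShift

open Pool.Agent.Lib.MP_1e8505_an

variable {H : Type*} [NormedAddCommGroup H] [InnerProductSpace ℂ H]

/-- two bounded operators that agree on a Hilbert basis are equal -/
lemma ext_basis (e : HilbertBasis ℤ ℂ H) {F : Type*} [NormedAddCommGroup F] [NormedSpace ℂ F]
    (S T : H →L[ℂ] F) (h : ∀ n, S (e n) = T (e n)) : S = T := by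
  refine ContinuousLinearMap.ext_on (s := Set.range e) ?_ ?_
  · have h1 := e.dense_span
    rw [← Submodule.dense_iff_topologicalClosure_eq_top] at h1
    exact h1
  · rintro _ ⟨n, rfl⟩
    exact h n

lemma summable_two_zpow : Summable fun n : ℤ => (2 : ℝ) ^ (-|n|) := by
  apply Summable.of_nat_of_neg
  · have : (fun n : ℕ => (2:ℝ) ^ (-|(n:ℤ)|)) = fun n : ℕ => (1 / 2 : ℝ) ^ n := by
      ext n
      rw [abs_of_nonneg (by positivity), zpow_neg, zpow_natCast]
      simp
    rw [this]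
    exact summable_geometric_two
  · have : (fun n : ℕ => (2:ℝ) ^ (-|(-(n:ℤ))|)) = fun n : ℕ => (1 / 2 : ℝ) ^ n := by
      ext n
      rw [abs_neg, abs_of_nonneg (by positivity), zpow_neg, zpow_natCast]
      simp
    rw [this]
    exact summable_geometric_two

variable [CompleteSpace H]

/-- existence of the weighted shift -/
lemma exists_shift (e : HilbertBasis ℤ ℂ H) :
    ∃ W : H →L[ℂ] H, ∀ n : ℤ, W (e n) = ((2:ℂ) ^ (-|n|)) • e (n + 1) := by
  let t : ℤ → (H →L[ℂ] H) := fun n =>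
    ((2:ℂ) ^ (-|n|)) • (innerSL ℂ (e n)).smulRight (e (n + 1))
  have hs : Summable t := by
    refine Summable.of_norm_bounded (g := fun n : ℤ => (2:ℝ) ^ (-|n|)) summable_two_zpow fun n => ?_
    simp only [t]
    rw [norm_smul, ContinuousLinearMap.norm_smulRight_apply, innerSL_apply_norm,
      e.orthonormal.1 n, e.orthonormal.1 (n + 1)]
    simp
  refine ⟨∑' n, t n, fun m => ?_⟩
  have h1 : HasSum (fun n => t n (e m)) ((∑' n, t n) (e m)) :=
    hs.hasSum.mapL (ContinuousLinearMap.apply ℂ H (e m))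
  have h2 : HasSum (fun n => t n (e m)) (t m (e m)) := by
    apply hasSum_single
    intro n hn
    simp only [t, smul_apply, ContinuousLinearMap.smulRight_apply,
      innerSL_apply_apply]
    rw [e.orthonormal.2 hn, zero_smul, smul_zero]
  rw [h1.unique h2]
  simp only [t, smul_apply, ContinuousLinearMap.smulRight_apply,
      innerSL_apply_apply]
  rw [inner_self_eq_norm_sq_to_K, e.orthonormal.1 m]
  simp

section shift

variable (e : HilbertBasis ℤ ℂ H) (W : H →L[ℂ] H)
  (hW : ∀ n : ℤ, W (e n) = ((2:ℂ) ^ (-|n|)) • e (n + 1))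

include hW

/-- coordinates of `W x` -/
lemma coord_W (x : H) (n : ℤ) :
    ⟪e (n + 1), W x⟫_ℂ = ((2:ℂ) ^ (-|n|)) * ⟪e n, x⟫_ℂ := by
  have h1 : (innerSL ℂ (e (n + 1))).comp W = ((2:ℂ) ^ (-|n|)) • innerSL ℂ (e n) := by
    apply ext_basis e
    intro m
    rw [ContinuousLinearMap.comp_apply, hW, smul_apply, innerSL_apply_apply,
      innerSL_apply_apply, inner_smul_right]
    have h2 := orthonormal_iff_ite.1 e.orthonormal
    rw [h2, h2]
    by_cases h : n = m
    · subst h; simp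
    · rw [if_neg h, if_neg (by omega)]; simp
  have h2 := congrArg (fun T : H →L[ℂ] ℂ => T x) h1
  simpa using h2

/-- coordinates of `W^k x` -/
lemma coord_pow (x : H) (n : ℤ) (k : ℕ) :
    ⟪e (n + k), (W ^ k) x⟫_ℂ = (c n k : ℂ) * ⟪e n, x⟫_ℂ := by
  induction k with
  | zero => simp [c_zero]
  | succ k ih =>
    have h : n + ((k + 1 : ℕ) : ℤ) = (n + k) + 1 := by push_cast; ring
    rw [h, pow_succ']
    have h2 : (W * W ^ k) x = W ((W ^ k) x) := rfl
    rw [h2, coord_W e W hW, ih, c_succ]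
    push_cast
    ring

/-- the core theorem for vectors -/
lemma core_vec (x y : H) (hxy : ∀ k : ℕ, ⟪y, (W ^ k) x⟫_ℂ = 0) (n m : ℤ) (hnm : n ≤ m)
    (hx : ⟪e n, x⟫_ℂ ≠ 0) : ⟪y, e m⟫_ℂ = 0 := by
  refine core (x := fun n => ⟪e n, x⟫_ℂ) (y := fun n => ⟪y, e n⟫_ℂ) ?_ ?_ ?_ n m hnm hx
  · exact e.orthonormal.inner_products_summable x
  · have := e.orthonormal.inner_products_summable y
    refine this.congr fun n => ?_
    rw [norm_inner_symm]
  · intro k
    have h1 := e.tsum_inner_mul_inner y ((W ^ k) x)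
    rw [hxy k, ← (Equiv.addRight (k:ℤ)).tsum_eq] at h1
    rw [← h1]
    apply tsum_congr
    intro n
    simp only [Equiv.coe_addRight, f]
    rw [coord_pow e W hW]
    ring

end shift

/-- The obvious subspace `M_k`. -/
def Mk (e : HilbertBasis ℤ ℂ H) (k : ℤ) : Submodule ℂ H :=
  (Submodule.span ℂ (e '' Set.Ici k)).topologicalClosure

lemma mem_Mk (e : HilbertBasis ℤ ℂ H) (k : ℤ) (x : H) (hx : ∀ n < k, ⟪e n, x⟫_ℂ = 0) :
    x ∈ Mk e k := by
  unfold Mk
  rw [← Submodule.orthogonal_orthogonal_eq_closure]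
  rw [Submodule.mem_orthogonal]
  intro z hz
  rw [← e.tsum_inner_mul_inner z x]
  have : ∀ n : ℤ, ⟪z, e n⟫_ℂ * ⟪e n, x⟫_ℂ = 0 := by
    intro n
    rcases lt_or_ge n k with h | h
    · rw [hx n h, mul_zero]
    · rw [Submodule.mem_orthogonal'] at hz
      rw [hz (e n) (Submodule.subset_span ⟨n, h, rfl⟩), zero_mul]
  simp only [this, tsum_zero]

lemma Mk_invariant (e : HilbertBasis ℤ ℂ H) (W : H →L[ℂ] H)
    (hW : ∀ n : ℤ, W (e n) = ((2:ℂ) ^ (-|n|)) • e (n + 1)) (k : ℤ) :
    ∀ x ∈ Mk e k, W x ∈ Mk e k := by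
  have h1 : Mk e k ≤ (Mk e k).comap (W : H →ₗ[ℂ] H) := by
    refine Submodule.topologicalClosure_minimal _ ?_ ?_
    · rw [Submodule.span_le]
      rintro _ ⟨n, hn, rfl⟩
      have hn' : k ≤ n := hn
      change W (e n) ∈ Mk e k
      rw [hW]
      apply Submodule.smul_mem
      apply Submodule.le_topologicalClosure
      exact Submodule.subset_span ⟨n + 1, by simp only [Set.mem_Ici]; omega, rfl⟩
    · exact (Submodule.isClosed_topologicalClosure _).preimage W.continuous
  exact fun x hx => h1 hx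

/-- **Halmos' question.** Let `e` be a Hilbert basis indexed by `ℤ`. There is exactly one bounded
operator `W` with `W e_n = 2^{-|n|} e_{n+1}` for all `n`, and its closed invariant subspaces are
exactly `0`, `H` and the closed spans of `{e_n : n ≥ k}`, `k ∈ ℤ`. -/
theorem result {H : Type*} [NormedAddCommGroup H] [InnerProductSpace ℂ H] [CompleteSpace H]
    (e : HilbertBasis ℤ ℂ H) :
    (∃! W : H →L[ℂ] H, ∀ n : ℤ, W (e n) = ((2:ℂ) ^ (-|n|)) • e (n + 1)) ∧
    ∀ W : H →L[ℂ] H, (∀ n : ℤ, W (e n) = ((2:ℂ) ^ (-|n|)) • e (n + 1)) →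
      ∀ M : Submodule ℂ H, IsClosed (M : Set H) →
        ((∀ x ∈ M, W x ∈ M) ↔
          (M = ⊥ ∨ M = ⊤ ∨
            ∃ k : ℤ, M = (Submodule.span ℂ (e '' Set.Ici k)).topologicalClosure)) := by
  constructor
  · obtain ⟨W, hW⟩ := exists_shift e
    exact ⟨W, hW, fun V hV => ext_basis e V W fun n => by rw [hV, hW]⟩
  intro W hW M hM
  constructor
  · intro hinv
    by_cases hbot : M = ⊥
    · exact Or.inl hbot
    by_cases htop : M = ⊤
    · exact Or.inr (Or.inl htop)
    refine Or.inr (Or.inr ?_)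
    have hpow : ∀ k : ℕ, ∀ x ∈ M, (W ^ k) x ∈ M := by
      intro k
      induction k with
      | zero => intro x hx; simpa using hx
      | succ k ih =>
        intro x hx
        rw [pow_succ']
        exact hinv _ (ih x hx)
    have hcore : ∀ x ∈ M, ∀ y ∈ Mᗮ, ∀ n m : ℤ, n ≤ m → ⟪e n, x⟫_ℂ ≠ 0 → ⟪y, e m⟫_ℂ = 0 := by
      intro x hx y hy n m hnm hne
      refine core_vec e W hW x y (fun k => ?_) n m hnm hne
      rw [Submodule.mem_orthogonal'] at hy
      exact hy _ (hpow k x hx)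
    have hMorth : Mᗮᗮ = M := by
      have : CompleteSpace M := hM.completeSpace_coe
      exact Submodule.orthogonal_orthogonal M
    -- a nonzero vector in the orthogonal complement
    have hperp : Mᗮ ≠ ⊥ := by
      intro h
      rw [h, Submodule.bot_orthogonal_eq_top] at hMorth
      exact htop hMorth.symm
    obtain ⟨y0, hy0, hy0ne⟩ := (Submodule.ne_bot_iff _).1 hperp
    obtain ⟨m0, hm0⟩ : ∃ m : ℤ, ⟪y0, e m⟫_ℂ ≠ 0 := by
      by_contra h
      push Not at h
      apply hy0ne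
      rw [← inner_self_eq_zero (𝕜 := ℂ), ← e.tsum_inner_mul_inner y0 y0]
      simp [h]
    obtain ⟨x0, hx0, hx0ne⟩ := (Submodule.ne_bot_iff _).1 hbot
    obtain ⟨n0, hn0⟩ : ∃ n : ℤ, ⟪e n, x0⟫_ℂ ≠ 0 := by
      by_contra h
      push Not at h
      apply hx0ne
      rw [← inner_self_eq_zero (𝕜 := ℂ), ← e.tsum_inner_mul_inner x0 x0]
      simp [h]
    obtain ⟨k, ⟨x1, hx1, hx1k⟩, hmin⟩ : ∃ k : ℤ, (∃ x ∈ M, ⟪e k, x⟫_ℂ ≠ 0) ∧
        ∀ z : ℤ, (∃ x ∈ M, ⟪e z, x⟫_ℂ ≠ 0) → k ≤ z := by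
      apply Int.exists_least_of_bdd
      · refine ⟨m0, fun z hz => ?_⟩
        obtain ⟨x, hx, hxz⟩ := hz
        by_contra hcon
        exact hm0 (hcore x hx y0 hy0 z m0 (by omega) hxz)
      · exact ⟨n0, x0, hx0, hn0⟩
    refine ⟨k, le_antisymm ?_ ?_⟩
    · intro x hx
      refine mem_Mk e k x fun n hn => ?_
      by_contra hcon
      have := hmin n ⟨x, hx, hcon⟩
      omega
    · refine Submodule.topologicalClosure_minimal _ ?_ hM
      rw [Submodule.span_le]
      rintro _ ⟨n, hn, rfl⟩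
      have hn' : k ≤ n := hn
      rw [SetLike.mem_coe, ← hMorth, Submodule.mem_orthogonal]
      intro y hy
      exact hcore x1 hx1 y hy k n hn' hx1k
  · rintro (rfl | rfl | ⟨k, rfl⟩)
    · intro x hx
      rw [Submodule.mem_bot] at hx ⊢
      rw [hx, map_zero]
    · intro x _
      trivial
    · exact Mk_invariant e W hW k

end Pool.Agent.Results.MP_1e8505_an.HalmosShift
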